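import Pool.Agent.N728.QU.All

set_option autoImplicit false

/-!
# `N + h² = p + m²`

For every integer `N` with few small prime factors, `|N| ≤ K H²`, and all but at most `ε H` of the `h ≤ H` the number of
the representations of `n = N + h²` as the sum of a prime and a square is the number predicted by Hardy and Littlewood
(their Conjecture H). In particular, if `N > 0`, all but at most `ε H` of the `n = N + h²`, `h ≤ H`, are sums of a prime
and a square.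

Proof (`Agent/N728/QU`): `N + h² - m² = N - u v` with `u = m - h`, `v = m + h` (and `N + u v` with `u = h - m`,
`v = h + m` for `m < h`), so `v ∓ u = 2 h`. Bilinear sums over `N ± u v` with an arbitrary bounded function of `v ∓ u` do
not change if a divisor of `u v`, composed of primes of a suitable range, is moved from `u` to `v`; by the multiplication
table phenomenon of Erdős few multiplicative windows contain such a divisor, and the off-diagonal terms are bounded by two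
applications of the Cauchy-Schwarz inequality and the fundamental lemma of the sieve (functions with mean zero on the
cells (residue class and block)). For the functions constant on the cells the range is shifted, by moving divisors again,
to `u ≤ v / (log v)^C`, where the theorem of Bombieri and Vinogradov at the sharp level applies. All this is uniform in
`N`.
-/

namespace Pool.Agent.Results.MP_d48457_nt.AlmostAllShiftsBySquares

open Finset
open Pool.Agent.N728.QU (V Sq FinalU cntu)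

/-- `N` has few small prime factors beyond `s₀`: `∑_{p ∣ N, p > s} 1/p ≤ 1/√s` for all `s ≥ s₀`. -/
def Tame (s₀ : ℕ) (N : ℤ) : Prop :=
  N ≠ 0 ∧ ∀ s : ℕ, s₀ ≤ s → ∑ p ∈ N.natAbs.primeFactors.filter (fun p => s < p), 1 / (p : ℝ) ≤ 1 / √(s : ℝ)

/-- Every fixed `N ≠ 0` satisfies the condition with `s₀ = |N|`. -/
theorem tame_natAbs (N : ℤ) (h : N ≠ 0) : Tame N.natAbs N := by
  refine ⟨h, fun s hs => ?_⟩
  have h1 : N.natAbs.primeFactors.filter (fun p => s < p) = ∅ := by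
    rw [filter_eq_empty_iff]
    intro p hp hsp
    have := Nat.le_of_mem_primeFactors hp
    omega
  rw [h1, sum_empty]
  positivity

/-- The number of the representations `n = p + m²`, `m ≥ 1`, `p` prime. -/
def rep (n : ℤ) : ℕ := ((Icc 1 n.toNat).filter (fun m : ℕ => (n - (m : ℤ) ^ 2).toNat.Prime)).card

/-- The sum of `1 / log (n - m²)` over the `m ≥ 1` with `n - m² ≥ 2`. -/
noncomputable def logSum (n : ℤ) : ℝ :=
  ∑ m ∈ (Icc 1 n.toNat).filter (fun m : ℕ => 2 ≤ n - (m : ℤ) ^ 2), 1 / Real.log ((n - (m : ℤ) ^ 2 : ℤ) : ℝ)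

/-- The number of the solutions of `m² ≡ n` modulo `p`. -/
def omega (n : ℤ) (p : ℕ) : ℕ := ((range p).filter (fun m : ℕ => (p : ℤ) ∣ n - (m : ℤ) ^ 2)).card

/-- The singular series of Hardy and Littlewood for `n = p + m²`, over the primes `p ≤ Z` (the factor at an odd `p` is
`1 - (n/p) / (p - 1)`). -/
noncomputable def series (n : ℤ) (Z : ℕ) : ℝ :=
  ∏ p ∈ (Ioc 0 Z).filter Nat.Prime, (1 - (omega n p : ℝ) / p) / (1 - 1 / (p : ℝ))

lemma V_eq (N : ℤ) (h m : ℕ) : V (-1) N h m = N + (h : ℤ) ^ 2 - (m : ℤ) ^ 2 := by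
  unfold V
  ring

lemma series_eq (N : ℤ) (h Z : ℕ) : series (N + (h : ℤ) ^ 2) Z = Sq (-1) N h Z := by
  unfold series Sq omega
  simp only [V_eq]

/-- all `m` beyond a bound `≥ √n` have `n - m² < 2` -/
lemma filter_eq (n : ℤ) (M : ℕ) (P : ℤ → Prop) [DecidablePred P] (hP : ∀ v, P v → 1 ≤ v) (hM : n ≤ (M : ℤ) ^ 2) :
    (Icc 1 n.toNat).filter (fun m : ℕ => P (n - (m : ℤ) ^ 2)) = (Icc 1 M).filter (fun m : ℕ => P (n - (m : ℤ) ^ 2)) := by
  ext m
  rw [mem_filter, mem_filter, mem_Icc, mem_Icc]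
  constructor
  · rintro ⟨⟨h1, h2⟩, h3⟩
    refine ⟨⟨h1, ?_⟩, h3⟩
    have h4 := hP _ h3
    by_contra h5
    push Not at h5
    have h6 : ((M : ℤ) + 1) ≤ m := by exact_mod_cast h5
    nlinarith [Int.natCast_nonneg M]
  · rintro ⟨⟨h1, h2⟩, h3⟩
    refine ⟨⟨h1, ?_⟩, h3⟩
    have h4 := hP _ h3
    have h6 : (1 : ℤ) ≤ m := by exact_mod_cast h1
    have h7 : (m : ℤ) ≤ n := by nlinarith
    omega

/-- The conclusion for one `h`, `n = N + h²`: the product is at least `κ`, and the number of representations is the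
expected one up to `δ H / log H`. -/
def Good (κ δ : ℝ) (N : ℤ) (H Z : ℕ) (h : ℕ) : Prop :=
  κ ≤ series (N + (h : ℤ) ^ 2) Z ∧
    |(rep (N + (h : ℤ) ^ 2) : ℝ) - series (N + (h : ℤ) ^ 2) Z * logSum (N + (h : ℤ) ^ 2)| ≤ δ * (H / Real.log H)

open Classical in
/-- The number of the `1 ≤ h ≤ H` for which the conclusion fails. -/
noncomputable def exceptions (κ δ : ℝ) (N : ℤ) (H Z : ℕ) : ℕ :=
  ((Icc 1 H).filter (fun h : ℕ => ¬ Good κ δ N H Z h)).card

theorem bridge (hF : ∀ s0, FinalU s0) (s₀ : ℕ) :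
    ∀ ε : ℝ, 0 < ε → ∃ κ : ℝ, 0 < κ ∧ ∀ (δ : ℝ) (K : ℕ), 0 < δ → ∃ Z₀ : ℕ, ∀ A : ℕ, ∃ H₀ : ℕ, ∀ H : ℕ, H₀ ≤ H →
      ∀ (N : ℤ) (Z : ℕ), Tame s₀ N → N.natAbs ≤ K * H ^ 2 → Z₀ ≤ Z → (Z : ℝ) ≤ Real.log H ^ A →
      (exceptions κ δ N H Z : ℝ) ≤ ε * H := by
  classical
  intro ε hε
  obtain ⟨κ, hκ, h1⟩ := hF s₀ ε hε
  refine ⟨κ, hκ, fun δ K hδ => ?_⟩
  obtain ⟨Z₀, h2⟩ := h1 δ (K + 1) hδ
  refine ⟨Z₀, fun A => ?_⟩
  obtain ⟨H₀, h3⟩ := h2 A
  refine ⟨H₀, fun H hH N Z hN hNK hZ1 hZ2 => ?_⟩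
  have h4 := h3 H hH ((K + 1) * H) Z N (-1) hN (Or.inr rfl)
    (hNK.trans (Nat.mul_le_mul_right _ (Nat.le_succ K))) le_rfl hZ1 hZ2
  refine le_trans (le_of_eq ?_) h4
  unfold exceptions
  congr 2
  apply filter_congr
  intro h hh
  rw [mem_Icc] at hh
  have hb : N + (h : ℤ) ^ 2 ≤ (((K + 1) * H : ℕ) : ℤ) ^ 2 := by
    have e1 : (N.natAbs : ℤ) ≤ K * (H : ℤ) ^ 2 := by exact_mod_cast hNK
    have e2 : N ≤ N.natAbs := Int.le_natAbs
    have e3 : (h : ℤ) ≤ H := by exact_mod_cast hh.2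
    have e4 : (h : ℤ) ^ 2 ≤ (H : ℤ) ^ 2 := pow_le_pow_left₀ (by positivity) e3 2
    push_cast
    have e5 : (0 : ℤ) ≤ K := by positivity
    nlinarith [mul_nonneg e5 (sq_nonneg (H : ℤ)), mul_nonneg (mul_nonneg e5 e5) (sq_nonneg (H : ℤ))]
  unfold Good rep logSum cntu
  rw [series_eq]
  simp only [V_eq]
  rw [filter_eq (N + (h : ℤ) ^ 2) ((K + 1) * H) (fun v => v.toNat.Prime)
      (fun v hv => by have := Nat.Prime.two_le hv; omega) hb,
    filter_eq (N + (h : ℤ) ^ 2) ((K + 1) * H) (fun v => 2 ≤ v) (fun v hv => by omega) hb]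

/-- `n` is the sum of a prime and a square. -/
def Representable (n : ℤ) : Prop := ∃ p m : ℕ, p.Prime ∧ n = p + (m : ℤ) ^ 2

lemma representable_of_rep {n : ℤ} (h : 0 < rep n) : Representable n := by
  unfold rep at h
  obtain ⟨m, hm⟩ := card_pos.1 h
  rw [mem_filter] at hm
  refine ⟨(n - (m : ℤ) ^ 2).toNat, m, hm.2, ?_⟩
  have := hm.2.two_le
  omega

lemma logSum_ge {N : ℤ} {K H h : ℕ} (hN : 0 < N) (hNK : N.natAbs ≤ K * H ^ 2) (hh : h ≤ H) (hh1 : 1 ≤ h)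
    (hHK : K + 1 ≤ H) (hH2 : 2 ≤ H) : ((h : ℝ) - 1) / (3 * Real.log H) ≤ logSum (N + (h : ℤ) ^ 2) := by
  have hn : (N + (h : ℤ) ^ 2) ≤ ((K + 1) * H ^ 2 : ℕ) := by
    have e1 : (N.natAbs : ℤ) ≤ K * (H : ℤ) ^ 2 := by exact_mod_cast hNK
    have e2 : N ≤ N.natAbs := Int.le_natAbs
    have e3 : (h : ℤ) ≤ H := by exact_mod_cast hh
    have e4 : (h : ℤ) ^ 2 ≤ (H : ℤ) ^ 2 := pow_le_pow_left₀ (by positivity) e3 2
    push_cast
    linarith
  have hlogH : 0 < Real.log H := Real.log_pos (by exact_mod_cast (show 1 < H by omega))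
  have hlog3 : Real.log (((K + 1) * H ^ 2 : ℕ) : ℝ) ≤ 3 * Real.log H := by
    have e1 : (((K + 1) * H ^ 2 : ℕ) : ℝ) ≤ (H : ℝ) ^ 3 := by
      have : (K + 1) * H ^ 2 ≤ H ^ 3 := by
        calc (K + 1) * H ^ 2 ≤ H * H ^ 2 := Nat.mul_le_mul_right _ hHK
          _ = H ^ 3 := by ring
      exact_mod_cast this
    have e2 : (0 : ℝ) < (((K + 1) * H ^ 2 : ℕ) : ℝ) := by
      have : 0 < (K + 1) * H ^ 2 := by positivity
      exact_mod_cast this
    have e3 := Real.log_le_log e2 e1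
    rw [Real.log_pow] at e3
    push_cast at e3
    exact_mod_cast e3
  have hsub : Icc 1 (h - 1) ⊆ (Icc 1 (N + (h : ℤ) ^ 2).toNat).filter (fun m : ℕ => 2 ≤ N + (h : ℤ) ^ 2 - (m : ℤ) ^ 2) := by
    intro m hm
    rw [mem_Icc] at hm
    have e1 : (m : ℤ) ≤ h - 1 := by omega
    have e2 : (1 : ℤ) ≤ m := by omega
    have e3 : (m : ℤ) ^ 2 ≤ ((h : ℤ) - 1) ^ 2 := pow_le_pow_left₀ (by omega) e1 2
    have e4 : (2 : ℤ) ≤ h := by omega
    rw [mem_filter, mem_Icc]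
    refine ⟨⟨hm.1, ?_⟩, by nlinarith⟩
    have e5 : (m : ℤ) ≤ N + (h : ℤ) ^ 2 := by nlinarith
    omega
  unfold logSum
  have hterm : ∀ m ∈ (Icc 1 (N + (h : ℤ) ^ 2).toNat).filter (fun m : ℕ => 2 ≤ N + (h : ℤ) ^ 2 - (m : ℤ) ^ 2),
      1 / (3 * Real.log H) ≤ 1 / Real.log ((N + (h : ℤ) ^ 2 - (m : ℤ) ^ 2 : ℤ) : ℝ) := by
    intro m hm
    rw [mem_filter] at hm
    have e1 : (2 : ℝ) ≤ ((N + (h : ℤ) ^ 2 - (m : ℤ) ^ 2 : ℤ) : ℝ) := by exact_mod_cast hm.2
    have e2 : ((N + (h : ℤ) ^ 2 - (m : ℤ) ^ 2 : ℤ) : ℝ) ≤ (((K + 1) * H ^ 2 : ℕ) : ℝ) := by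
      have : N + (h : ℤ) ^ 2 - (m : ℤ) ^ 2 ≤ (((K + 1) * H ^ 2 : ℕ) : ℤ) := by
        have := sq_nonneg (m : ℤ)
        linarith
      exact_mod_cast this
    apply one_div_le_one_div_of_le (Real.log_pos (by linarith))
    exact (Real.log_le_log (by linarith) e2).trans hlog3
  calc ((h : ℝ) - 1) / (3 * Real.log H) = ((Icc 1 (h - 1)).card : ℝ) * (1 / (3 * Real.log H)) := by
        rw [Nat.card_Icc, show h - 1 + 1 - 1 = h - 1 by omega, Nat.cast_sub hh1]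
        push_cast
        ring
    _ ≤ (((Icc 1 (N + (h : ℤ) ^ 2).toNat).filter (fun m : ℕ => 2 ≤ N + (h : ℤ) ^ 2 - (m : ℤ) ^ 2)).card : ℝ) *
        (1 / (3 * Real.log H)) := by
        apply mul_le_mul_of_nonneg_right _ (by positivity)
        exact_mod_cast card_le_card hsub
    _ = ∑ m ∈ (Icc 1 (N + (h : ℤ) ^ 2).toNat).filter (fun m : ℕ => 2 ≤ N + (h : ℤ) ^ 2 - (m : ℤ) ^ 2),
        1 / (3 * Real.log H) := by rw [sum_const, nsmul_eq_mul]
    _ ≤ _ := sum_le_sum hterm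

open Classical in
/-- The number of the `1 ≤ h ≤ H` for which `N + h²` is not the sum of a prime and a square. -/
noncomputable def missing (N : ℤ) (H : ℕ) : ℕ :=
  ((Icc 1 H).filter (fun h : ℕ => ¬ Representable (N + (h : ℤ) ^ 2))).card

/-- **Theorem.** -/
theorem result (s₀ : ℕ) :
    (∀ ε : ℝ, 0 < ε → ∃ κ : ℝ, 0 < κ ∧ ∀ (δ : ℝ) (K : ℕ), 0 < δ → ∃ Z₀ : ℕ, ∀ A : ℕ, ∃ H₀ : ℕ, ∀ H : ℕ, H₀ ≤ H →
      ∀ (N : ℤ) (Z : ℕ), Tame s₀ N → N.natAbs ≤ K * H ^ 2 → Z₀ ≤ Z → (Z : ℝ) ≤ Real.log H ^ A →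
      (exceptions κ δ N H Z : ℝ) ≤ ε * H) ∧
    (∀ (ε : ℝ) (K : ℕ), 0 < ε → ∃ H₀ : ℕ, ∀ H : ℕ, H₀ ≤ H → ∀ N : ℤ, Tame s₀ N → 0 < N → N.natAbs ≤ K * H ^ 2 →
      (missing N H : ℝ) ≤ ε * H) := by
  classical
  have hmain := bridge Pool.Agent.N728.QU.finalU s₀
  refine ⟨hmain, ?_⟩
  intro ε K hε
  obtain ⟨κ, hκ, h1⟩ := hmain (ε / 2) (by positivity)
  obtain ⟨Z₀, h2⟩ := h1 (κ * ε / 24) K (by positivity)
  obtain ⟨H₁, h3⟩ := h2 1
  obtain ⟨L, hL⟩ := exists_nat_ge (Real.exp Z₀)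
  obtain ⟨L', hL'⟩ := exists_nat_ge (8 / ε)
  refine ⟨max (max H₁ L) (max (K + 2) (L' + 1)), fun H hH N hN hN0 hNK => ?_⟩
  have hHa : H₁ ≤ H := (le_max_left _ _).trans ((le_max_left _ _).trans hH)
  have hHb : L ≤ H := (le_max_right _ _).trans ((le_max_left _ _).trans hH)
  have hHc : K + 2 ≤ H := (le_max_left _ _).trans ((le_max_right _ _).trans hH)
  have hHd : L' + 1 ≤ H := (le_max_right _ _).trans ((le_max_right _ _).trans hH)
  have hH0 : (0 : ℝ) < H := by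
    have : 0 < H := by omega
    exact_mod_cast this
  have hlogZ : (Z₀ : ℝ) ≤ Real.log H ^ 1 := by
    rw [pow_one, Real.le_log_iff_exp_le hH0]
    exact hL.trans (by exact_mod_cast hHb)
  have h4 := h3 H hHa N Z₀ hN hNK le_rfl hlogZ
  have hlogH : 0 < Real.log H := Real.log_pos (by exact_mod_cast (show 1 < H by omega))
  have hεH : 8 ≤ ε * H := by
    have e1 : (L' : ℝ) + 1 ≤ H := by exact_mod_cast hHd
    rw [div_le_iff₀ hε] at hL'
    nlinarith
  have hsub : (Icc 1 H).filter (fun h : ℕ => ¬ Representable (N + (h : ℤ) ^ 2)) ⊆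
      (Icc 1 H).filter (fun h : ℕ => ¬ Good κ (κ * ε / 24) N H Z₀ h) ∪ Icc 1 ⌊ε / 2 * H⌋₊ := by
    intro h hh
    rw [mem_filter, mem_Icc] at hh
    rw [mem_union, mem_filter, mem_Icc, mem_Icc]
    by_contra hcon
    push Not at hcon
    obtain ⟨hc1, hc2⟩ := hcon
    have hgood := hc1 hh.1
    have hbig : ε / 2 * H < h := (Nat.floor_lt (by positivity)).1 (hc2 hh.1.1)
    obtain ⟨g1, g2⟩ := hgood
    apply hh.2
    apply representable_of_rep
    have g3 := logSum_ge hN0 hNK hh.1.2 hh.1.1 (by omega) (by omega)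
    have g4 : ε * H / 4 ≤ (h : ℝ) - 1 := by linarith
    have g5 : ε * H / 12 / Real.log H ≤ logSum (N + (h : ℤ) ^ 2) := by
      refine le_trans ?_ g3
      rw [div_le_div_iff₀ hlogH (by positivity)]
      nlinarith
    have g6 : κ * (ε * H / 12 / Real.log H) ≤ series (N + (h : ℤ) ^ 2) Z₀ * logSum (N + (h : ℤ) ^ 2) :=
      mul_le_mul g1 g5 (by positivity) (hκ.le.trans g1)
    have g7 : κ * ε / 24 * (H / Real.log H) < κ * (ε * H / 12 / Real.log H) := by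
      have : κ * (ε * H / 12 / Real.log H) = 2 * (κ * ε / 24 * (H / Real.log H)) := by ring
      rw [this]
      have : 0 < κ * ε / 24 * (H / Real.log H) := by positivity
      linarith
    have g8 := (abs_le.1 g2).1
    have g9 : (0 : ℝ) < rep (N + (h : ℤ) ^ 2) := by linarith
    exact_mod_cast g9
  unfold missing
  have e1 := (card_le_card hsub).trans (card_union_le _ _)
  have e2 : (((Icc 1 H).filter (fun h : ℕ => ¬ Representable (N + (h : ℤ) ^ 2))).card : ℝ) ≤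
      (((Icc 1 H).filter (fun h : ℕ => ¬ Good κ (κ * ε / 24) N H Z₀ h)).card : ℝ) +
        ((Icc 1 ⌊ε / 2 * H⌋₊).card : ℝ) := by exact_mod_cast e1
  have e3 : ((Icc 1 ⌊ε / 2 * (H : ℝ)⌋₊).card : ℝ) ≤ ε / 2 * H := by
    rw [Nat.card_Icc, Nat.add_sub_cancel]
    exact Nat.floor_le (by positivity)
  have e4 : (((Icc 1 H).filter (fun h : ℕ => ¬ Good κ (κ * ε / 24) N H Z₀ h)).card : ℝ) ≤ ε / 2 * H := by
    refine le_trans (le_of_eq ?_) h4
    unfold exceptions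
    congr!
  linarith

end Pool.Agent.Results.MP_d48457_nt.AlmostAllShiftsBySquares
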