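import Pool.Agent.N913.AW.W1

/-!
# `N = p + n²` with arbitrary weights and in all residue classes, in all windows below `√N`

For almost all `N ≤ X`: in ALL windows `(u, v]`, `v ≤ √N`, of length at least `(log X)^B` whose distance from
`√N` is at most `(log X)^C` times the length,

* for ANY family of at most `(log X)^V` functions `c : ℕ → [-1, 1]` (fixed before `N`; for instance the indicator
  functions of arbitrary sets of integers) the sum of `c(n)` over the `n` of the window for which `N - n²` is a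
  prime is the sum of `c(n)` times the sieve model, up to the length of the window divided by `(log X)^U`;
* the number of the representations `N = p + n²` with `n` in the window and in a residue class `b` modulo `q` is
  given by the formula of Hardy and Littlewood, for all `q ≤ (log X)^V` and all `b` with `gcd (N - b², q) = 1` at
  once.

So almost every `N` is `p + n²` with a prime `p ≤ 3 √N (log N)^B` and `n` in any admissible class modulo any
`q ≤ (log N)^V`.

Method (project AW of helper913, whose theorem on the primes `|n² + a|` near `√(-a)` this is for `a = -N` and the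
windows below the square root): the second moment over all `N` of `∑_n c(n) f(N - n²)` is
`∑_{n, n'} c(n) c(n') R(n'² - n²)` with the autocorrelations `R` of `f`. The divisor bound for the number of
representations as differences of two squares removes the coefficients, so that the second moment is bounded,
uniformly in `c`, by the supremum of the exponential sum of `f` = primes minus their sieve model.
-/

set_option autoImplicit false

namespace Pool.Agent.Results.MP_d48457_nt.ArbitraryWeights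

open Finset Filter Topology

/-- the product over the odd primes `w ≤ z` of `1 - (N | w) / (w - 1)` -/
noncomputable def hcut (N z : ℕ) : ℝ :=
  ∏ w ∈ (Finset.range (z + 1)).filter (fun w => Nat.Prime w ∧ w ≠ 2),
    (1 - (jacobiSym (N : ℤ) w : ℝ) / ((w : ℝ) - 1))

/-- the sum of `1 / log (N - n²)` over `u < n ≤ v` -/
noncomputable def M (N u v : ℕ) : ℝ := ∑ n ∈ Ioc u v, 1 / Real.log ((N : ℝ) - (n : ℝ) ^ 2)

/-- the sieve model of the indicator function of the primes `N - n²`: it is `0` if `N - n²` has a prime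
factor `≤ z`, otherwise `1 / log (N - n²)` times the product over the primes `p ≤ z` of `(1 - 1/p)⁻¹` -/
noncomputable def model (z N n : ℕ) : ℝ :=
  if ∀ p : ℕ, p ≤ z → p.Prime → ¬ p ∣ N - n ^ 2 then
    (∏ p ∈ (Icc 1 z).filter Nat.Prime, (1 - 1 / (p : ℝ)))⁻¹ * (1 / Real.log ((N : ℝ) - (n : ℝ) ^ 2)) else 0

/-- the number of residues `r` modulo `p` with `p ∣ N - r²` -/
def rho (N p : ℕ) : ℕ := #((range p).filter (fun r : ℕ => (p : ℤ) ∣ (N : ℤ) - (r : ℤ) ^ 2))

/-- the density of the primes `N - n²` in a residue class `n ≡ b` modulo `q` with `gcd (N - b², q) = 1` -/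
noncomputable def dens (N q : ℕ) : ℝ := (∏ p ∈ q.primeFactors, (1 - (rho N p : ℝ) / p)⁻¹) / q

/-- the number of `n ≡ b (mod q)` with `u < n ≤ v` such that `N - n²` is a prime -/
def reps (N q b u v : ℕ) : ℕ := #((Ioc u v).filter (fun n : ℕ => n ≡ b [MOD q] ∧ Nat.Prime (N - n ^ 2)))

/-- **Representations `N = p + n²` with arbitrary weights and in residue classes, in windows below `√N`.** For all
`U`, `C`, `V` and `ε > 0` there are `B`, `E` and `X₀` such that for `X ≥ X₀` and EVERY family `F` of at most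
`(log X)^V` functions with values in `[-1, 1]`, all but at most `X / (log X)^U` of the integers
`1 ≤ N ≤ X` have the following properties: `N` is not a square, the product `h_N` converges to a number `h > 0`,
and for ALL `u < v ≤ √N` with `√N - u ≤ (v - u) (log X)^C` and `v - u ≥ (log X)^B`:
* for all `c` in `F` the sums over `u < n ≤ v` of `c(n)` times the indicator function of the primes `N - n²`
  and of `c(n)` times its sieve model with `z = (log X)^E` differ by at most `(v - u) / (log X)^U`;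
* for ALL `1 ≤ q ≤ (log X)^V` and all `b` with `gcd (N - b², q) = 1` the number of representations `N = p + n²`
  with `u < n ≤ v`, `n ≡ b (mod q)` is `h · dens · ∑_{u < n ≤ v} 1 / log (N - n²)` up to a relative error `ε`. -/
theorem result : ∀ (U C V : ℕ) (ε : ℝ), 0 < ε → ∃ B E X₀ : ℕ, ∀ X : ℕ, X₀ ≤ X →
    ∀ F : Finset (ℕ → ℝ), (#F : ℝ) ≤ Real.log X ^ V → (∀ c ∈ F, ∀ n, |c n| ≤ 1) →
    ∃ Bad ⊆ Icc 1 X, (#Bad : ℝ) ≤ X / Real.log X ^ U ∧
    ∀ N ∈ Icc 1 X, N ∉ Bad → ¬ IsSquare N ∧
      ∃ h : ℝ, 0 < h ∧ Tendsto (fun z : ℕ => hcut N z) atTop (𝓝 h) ∧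
      ∀ u v : ℕ, u < v → (v : ℝ) ≤ √N →
        √N - u ≤ ((v : ℝ) - u) * Real.log X ^ C → Real.log X ^ B ≤ (v : ℝ) - u →
        (∀ c ∈ F, |∑ n ∈ Ioc u v, c n * ((if Nat.Prime (N - n ^ 2) then 1 else 0) -
            model ⌊Real.log X ^ E⌋₊ N n)| ≤ ((v : ℝ) - u) / Real.log X ^ U) ∧
        (∀ q : ℕ, 1 ≤ q → (q : ℝ) ≤ Real.log X ^ V → ∀ b : ℕ, Int.gcd ((N : ℤ) - (b : ℤ) ^ 2) q = 1 →
          |(reps N q b u v : ℝ) - h * dens N q * M N u v| ≤ ε * (h * dens N q * M N u v)) := by
  intro U C V ε hε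
  obtain ⟨B, E, X₀, h0⟩ := Pool.Agent.N913.AW.weights_progressions U C V ε hε
  refine ⟨B, E, max X₀ 3, fun X hX F hF hF1 => ?_⟩
  have hX3 : 3 ≤ X := (le_max_right _ _).trans hX
  obtain ⟨Bad, hB1, hB2, hB3⟩ := h0 X ((le_max_left _ _).trans hX) F hF hF1
  refine ⟨Bad, hB1, hB2, fun N hN hNB => ?_⟩
  obtain ⟨hvn, h, hh, hlim, hwin⟩ := hB3 N hN hNB
  have hNX : N ≤ X := (mem_Icc.1 hN).2
  have hlog : 1 ≤ Real.log X := by
    have h1 : Real.exp 1 ≤ X := by
      have h2 : (3 : ℝ) ≤ X := by exact_mod_cast hX3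
      linarith [Real.exp_one_lt_d9]
    exact (Real.le_log_iff_exp_le (by positivity)).2 h1
  have hsq : ¬ IsSquare N := by
    rintro ⟨r, hr⟩
    have h1 := hvn r
    have h2 : Pool.Agent.TH892.SW.vn N r = 0 := by
      unfold Pool.Agent.TH892.SW.vn
      rw [hr]
      push_cast
      rw [sq, sub_self]
      rfl
    omega
  refine ⟨hsq, h, hh, ?_, ?_⟩
  · have e : (fun z : ℕ => hcut N z) = fun z => Pool.Agent.TH892.SW.HP N z := rfl
    rw [e]
    exact hlim
  · intro u v huv hv hu hB
    -- all `n ≤ v` satisfy `n² < N`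
    have hnle : ∀ n ∈ Ioc u v, n ^ 2 < N := by
      intro n hn
      have h1 : (n : ℝ) ≤ √N := le_trans (by exact_mod_cast (mem_Ioc.1 hn).2) hv
      have h2 : (n : ℝ) ^ 2 ≤ N := by
        have h3 := pow_le_pow_left₀ (by positivity) h1 2
        rwa [Real.sq_sqrt (by positivity)] at h3
      have h4 : n ^ 2 ≤ N := by exact_mod_cast h2
      refine lt_of_le_of_ne h4 fun h5 => hsq ⟨n, ?_⟩
      rw [← h5, sq]
    have hv1 : ∀ n ∈ Ioc u v, Pool.Agent.TH892.SW.vn N n = N - n ^ 2 := by
      intro n hn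
      have h1 := hnle n hn
      unfold Pool.Agent.TH892.SW.vn
      have h2 : ((n : ℤ) ^ 2 - N) = -((N - n ^ 2 : ℕ) : ℤ) := by
        rw [Nat.cast_sub h1.le]
        push_cast
        ring
      rw [h2, Int.natAbs_neg, Int.natAbs_natCast]
    have hcast : ∀ n ∈ Ioc u v, ((N - n ^ 2 : ℕ) : ℝ) = (N : ℝ) - (n : ℝ) ^ 2 := by
      intro n hn
      rw [Nat.cast_sub (hnle n hn).le]
      push_cast
      ring
    have hM : M N u v = ∑ i ∈ Ioc u v, Pool.Agent.TH892.SW.wt (Pool.Agent.TH892.SW.vn N i) := by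
      unfold M Pool.Agent.TH892.SW.wt
      refine sum_congr rfl fun n hn => ?_
      rw [hv1 n hn, hcast n hn]
    have hrho : ∀ p : ℕ, p.Prime → (rho N p : ℝ) = Pool.Agent.TH892.SW.rk N p := by
      intro p hp
      have h1 := Pool.Agent.TH892.SW.root_card p hp 0 N
      unfold rho Pool.Agent.TH892.SW.rk
      rw [← h1]
      congr 2
      ext r
      simp only [mem_filter]
      refine and_congr_right fun _ => ?_
      rw [← dvd_neg]
      ring_nf
    have hdens : ∀ q : ℕ, dens N q = Pool.Agent.N913.AW.Rq N q / q := by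
      intro q
      unfold dens Pool.Agent.N913.AW.Rq
      congr 1
      refine prod_congr rfl fun p hp => ?_
      rw [hrho p (Nat.prime_of_mem_primeFactors hp)]
    have hvX : (v : ℝ) ≤ √X * Real.log X ^ C := by
      have h1 : √(N : ℝ) ≤ √(X : ℝ) := Real.sqrt_le_sqrt (by exact_mod_cast hNX)
      have h2 : (1 : ℝ) ≤ Real.log X ^ C := one_le_pow₀ hlog
      calc (v : ℝ) ≤ √X := hv.trans h1
        _ = √X * 1 := (mul_one _).symm
        _ ≤ √X * Real.log X ^ C := mul_le_mul_of_nonneg_left h2 (Real.sqrt_nonneg _)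
    have hu' : |(u : ℝ) - √N| ≤ ((v : ℝ) - u) * Real.log X ^ C := by
      rw [abs_sub_comm, abs_of_nonneg]
      · exact hu
      · have : (u : ℝ) ≤ v := by exact_mod_cast huv.le
        linarith
    obtain ⟨hw1, hw2⟩ := hwin u v huv hvX hu' hB
    refine ⟨fun c hc => ?_, fun q hq hqL b hb => ?_⟩
    · refine le_trans (le_of_eq ?_) (hw1 c hc)
      congr 1
      refine sum_congr rfl fun n hn => ?_
      rw [Pool.Agent.TH892.SW.gK_eq _ N n (hvn n), hv1 n hn]
      congr 2
      unfold model Pool.Agent.H373R2.T7.lamz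
      have h1 : (∀ p ∈ Pool.Agent.H373R2.T7.pz ⌊Real.log X ^ E⌋₊, ¬ p ∣ N - n ^ 2) ↔
          (∀ p : ℕ, p ≤ ⌊Real.log X ^ E⌋₊ → p.Prime → ¬ p ∣ N - n ^ 2) := by
        constructor
        · intro h1 p hp hpp hd
          exact h1 p (Pool.Agent.H373R2.T7.mem_pz.2 ⟨hp, hpp⟩) hd
        · intro h1 p hp hd
          rw [Pool.Agent.H373R2.T7.mem_pz] at hp
          exact h1 p hp.1 hp.2 hd
      by_cases h2 : ∀ p ∈ Pool.Agent.H373R2.T7.pz ⌊Real.log X ^ E⌋₊, ¬ p ∣ N - n ^ 2
      · rw [if_pos h2, if_pos (h1.1 h2), ← hcast n hn]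
        rfl
      · rw [if_neg h2, if_neg (fun h3 => h2 (h1.2 h3)), zero_mul]
    · have h1 := hw2 q hq hqL b (by
        intro p hp hd
        have h2 : (p : ℤ) ∣ Int.gcd ((N : ℤ) - (b : ℤ) ^ 2) q := by
          apply Int.dvd_coe_gcd
          · have e3 : (N : ℤ) - (b : ℤ) ^ 2 = -((b : ℤ) ^ 2 - (N : ℤ)) := by ring
            rw [e3]
            exact (dvd_neg).2 hd
          · exact_mod_cast Nat.dvd_of_mem_primeFactors hp
        rw [hb] at h2
        have h3 : p ∣ 1 := by exact_mod_cast h2
        exact (Nat.prime_of_mem_primeFactors hp).one_lt.ne' (Nat.dvd_one.1 h3))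
      have hPe : reps N q b u v =
          ((Ioc u v).filter (fun i => i ≡ b [MOD q] ∧ (Pool.Agent.TH892.SW.vn N i).Prime)).card := by
        unfold reps
        congr 1
        refine filter_congr fun n hn => ?_
        rw [hv1 n hn]
      rw [hPe, hM, hdens]
      have e2 : h * (Pool.Agent.N913.AW.Rq N q / q) * ∑ i ∈ Ioc u v, Pool.Agent.TH892.SW.wt (Pool.Agent.TH892.SW.vn N i) =
          Pool.Agent.N913.AW.Rq N q / q * (h * ∑ i ∈ Ioc u v, Pool.Agent.TH892.SW.wt (Pool.Agent.TH892.SW.vn N i)) := by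
        ring
      rw [e2]
      exact h1

end Pool.Agent.Results.MP_d48457_nt.ArbitraryWeights
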