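import Pool.Agent.N913.MG.R3

/-!
# Bounded clusters of representations `N = p + n²` for almost all `N`

The Maynard-Tao theorem for the representations of an integer as a prime plus a square: for every
`m` there are `k` and `B` such that for every set `S` of at least `k` nonnegative integers, for all
but at most `ε X` of the `N ≤ X`, there is an integer `u` with
`√N - J - (log X)^B ≤ u ≤ √N - J` such that at least `m` of the numbers `N - (u + h)²`, `h ∈ S`, are
primes; for each single `J ≤ (log X)^C`, and for almost all members `J` of an arbitrary set of such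
`J` at the same time.

Method: write `N = σ² - r` with `0 < r < 2 σ`. Then `N - (σ - t)² = 2 σ t - t² - r` is for each `t` a
linear form in `s = 2 σ` and `r`; two such forms, for `t ≠ t'`, are independent. The second moments
over all pairs `(s, r)` of Maynard's weighted sums, with weights supported on divisors of the values
at `t + h`, `h ∈ S`, with and without the indicator functions of the prime values, can be computed
(Bombieri-Vinogradov theorem), so the weighted sums over the `t` in a window of length a power of
`log X` are close to their means for almost all pairs; the ratio of the means is unbounded.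
-/

set_option autoImplicit false

namespace Pool.Agent.Results.MP_d48457_nt.BoundedClusters

open Finset

/-- the number of `h ∈ S` such that `N - (u + h)²` is a prime -/
def rootsIn (S : Finset ℕ) (N u : ℕ) : ℕ :=
  #(S.filter (fun h => (N - (u + h) ^ 2).Prime))

/-- **Bounded clusters of representations `N = p + n²` for almost all `N`.** For every `m` there are
`k` and `B` such that for every set `S` of at least `k` nonnegative integers, all `C` and `ε > 0`,
all `X ≥ X₀` and every finite set `W` of integers `0 ≤ J ≤ (log X)^C` all but at most `ε X` of the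
integers `1 ≤ N ≤ X` have the following property: for all but at most `ε #W` of the `J ∈ W` there is
an integer `u ≥ 0` with `√N - J - (log X)^B ≤ u ≤ √N - J` such that at least `m` of the numbers
`N - (u + h)²`, `h ∈ S`, are primes. -/
theorem result (m : ℕ) : ∃ k B : ℕ, ∀ S : Finset ℕ, k ≤ #S → ∀ (C : ℕ) (ε : ℝ), 0 < ε →
    ∃ X₀ : ℕ, ∀ X : ℕ, X₀ ≤ X → ∀ W : Finset ℕ, (∀ J ∈ W, (J : ℝ) ≤ Real.log X ^ C) →
    ∃ Bad ⊆ Icc 1 X, (#Bad : ℝ) ≤ ε * X ∧ ∀ N ∈ Icc 1 X, N ∉ Bad →
      ∃ G ⊆ W, (1 - ε) * #W ≤ #G ∧ ∀ J ∈ G, ∃ u : ℕ, √N - J - Real.log X ^ B ≤ u ∧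
        (u : ℝ) ≤ √N - J ∧ m ≤ rootsIn S N u :=
  Pool.Agent.N913.MG.primeSquare m

end Pool.Agent.Results.MP_d48457_nt.BoundedClusters
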