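import Mathlib
import Pool.Agent.N909.TF.Tools

set_option autoImplicit false

/-!
# A prime plus a square in every sequential random model of the primes

The question (Hardy and Littlewood) is whether every large even integer which is not a square is the
sum of a prime and a square.  We answer it for all large integers, with an asymptotic formula for the
number of representations, in EVERY sequential random model of the primes: the integers are decided
one after the other, only integers coprime to a fixed `Q` can be chosen, and the conditional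
probability of choosing `n + 1` (coprime to `Q`) given the past is asymptotic to
`(Q / φ(Q)) / log n`.  No independence is assumed.
-/

open MeasureTheory Filter
open scoped Topology

namespace Pool.Agent.Results.MP_d48457_nt.SievedModels

/-- the `m ≥ 1` with `n = a + m²` for a positive element `a` of `S` -/
def roots (S : Set ℕ) (n : ℕ) : Set ℕ := {m | 1 ≤ m ∧ ∃ a ∈ S, 0 < a ∧ n = a + m ^ 2}

open Pool.Agent.N909.TF

/-- the possible `m` -/
def fam (n : ℕ) : Finset ℕ := (Finset.Ioc 0 (Nat.sqrt n)).filter (fun m => m ^ 2 < n)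

/-- the number which has to be chosen -/
def tup (n m : ℕ) : Finset ℕ := {n - m ^ 2}

open Classical in
lemma roots_eq (S : Set ℕ) (n : ℕ) :
    roots S n = (((fam n).filter (fun m => ∀ t ∈ tup n m, t ∈ S) : Finset ℕ) : Set ℕ) := by
  ext m
  unfold roots fam tup
  simp only [Set.mem_ofPred_eq, Finset.coe_filter, Finset.mem_filter, Finset.mem_Ioc, Finset.mem_singleton,
    forall_eq]
  constructor
  · rintro ⟨h1, a, h2, h3, h4⟩
    have h5 : m ^ 2 < n := by omega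
    refine ⟨⟨⟨h1, Nat.le_sqrt'.2 h5.le⟩, h5⟩, ?_⟩
    rwa [show n - m ^ 2 = a by omega]
  · rintro ⟨⟨⟨h1, h2⟩, h3⟩, h4⟩
    exact ⟨h1, n - m ^ 2, h4, by omega, by omega⟩

lemma roots_cop (Q n : ℕ) : (roots {k : ℕ | Nat.Coprime k Q} n).ncard = (cop (fam n) (tup n) Q).card := by
  classical
  rw [roots_eq, Set.ncard_coe_finset]
  unfold cop
  congr 1
  ext m
  simp only [Finset.mem_filter, Set.mem_ofPred_eq]

lemma roots_cho {Ω : Type} (A : ℕ → Set Ω) (n : ℕ) (ω : Ω) :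
    (roots {k : ℕ | ω ∈ A k} n).ncard = (cho A (fam n) (tup n) ω).card := by
  classical
  rw [roots_eq, Set.ncard_coe_finset]
  unfold cho
  congr 1

/-- a residue class of admissible `m` -/
lemma local_ok (Q n : ℕ) (hQ : 0 < Q) : ∃ x : ℕ, ∀ m, m ≡ x [MOD Q] → m ^ 2 < n → Nat.Coprime (n - m ^ 2) Q := by
  classical
  obtain ⟨x, hx⟩ := crt_primes Q (fun l => if l ∣ n then 1 else 0)
  refine ⟨x, fun m hm hmn => ?_⟩
  rw [coprime_iff_primes]
  intro l hl hlQ hdvd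
  have h1 := hx m hm l hl hlQ hQ.ne'
  have h2 : n = (n - m ^ 2) + m ^ 2 := by omega
  by_cases h : l ∣ n
  · rw [if_pos h] at h1
    have h3 : l ∣ m ^ 2 := by
      rw [h2] at h
      exact (Nat.dvd_add_right hdvd).1 h
    have h4 : m ^ 2 ≡ 1 ^ 2 [MOD l] := h1.pow 2
    have h5 : l ∣ 1 := by
      have := (h4.dvd_iff (dvd_refl l)).1 h3
      simpa using this
    exact hl.one_lt.ne' (Nat.dvd_one.1 h5)
  · rw [if_neg h] at h1
    have h3 : l ∣ m := (Nat.modEq_zero_iff_dvd).1 h1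
    apply h
    rw [h2]
    exact dvd_add hdvd (dvd_pow h3 two_ne_zero)

lemma many (Q : ℕ) (hQ : 0 < Q) :
    ∀ᶠ n : ℕ in atTop, 1 / (2 * (Q : ℝ)) * (n : ℝ) ^ (1 / 2 : ℝ) ≤ (cop (fam n) (tup n) Q).card := by
  classical
  have h1 : ∀ᶠ n : ℕ in atTop, 4 * (Q : ℝ) + 4 ≤ (n : ℝ) ^ (1 / 2 : ℝ) :=
    ((tendsto_rpow_atTop (by norm_num : (0:ℝ) < 1 / 2)).comp tendsto_natCast_atTop_atTop).eventually_ge_atTop _
  filter_upwards [h1, eventually_gt_atTop 0] with n g1 g2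
  obtain ⟨x, hx⟩ := local_ok Q n hQ
  have h2 := many_class Q x (Nat.sqrt n - 1) hQ
  have h3 : ((Finset.Ioc 0 (Nat.sqrt n - 1)).filter (fun m => m ≡ x [MOD Q])).card ≤ (cop (fam n) (tup n) Q).card := by
    apply Finset.card_le_card
    intro m hm
    rw [Finset.mem_filter, Finset.mem_Ioc] at hm
    obtain ⟨⟨m1, m2⟩, m3⟩ := hm
    have m4 : m ^ 2 < n := by
      have : m < Nat.sqrt n := by omega
      calc m ^ 2 < (Nat.sqrt n) ^ 2 := Nat.pow_lt_pow_left this two_ne_zero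
        _ ≤ n := Nat.sqrt_le' n
    unfold cop fam tup
    simp only [Finset.mem_filter, Finset.mem_Ioc, Finset.mem_singleton, forall_eq]
    exact ⟨⟨⟨m1, by omega⟩, m4⟩, hx m m3 m4⟩
  have hQ' : (1 : ℝ) ≤ Q := by exact_mod_cast hQ
  have h4 : (n : ℝ) ^ (1 / 2 : ℝ) - 1 ≤ Nat.sqrt n := by
    rw [← Real.sqrt_eq_rpow]
    have h5 : √(n : ℝ) < Nat.sqrt n + 1 := by
      rw [Real.sqrt_lt' (by positivity)]
      have := Nat.lt_succ_sqrt' n
      have h6 : (n : ℝ) < ((Nat.sqrt n + 1 : ℕ) : ℝ) ^ 2 := by exact_mod_cast this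
      push_cast at h6
      exact h6
    linarith
  have h6 : ((Nat.sqrt n - 1 : ℕ) : ℝ) ≥ (n : ℝ) ^ (1 / 2 : ℝ) - 2 := by
    have h7 : 1 ≤ Nat.sqrt n := Nat.succ_le_of_lt (Nat.sqrt_pos.2 g2)
    rw [Nat.cast_sub h7]
    push_cast
    linarith
  have h8 : ((Nat.sqrt n - 1 : ℕ) : ℝ) / Q - 1 ≤ (((Nat.sqrt n - 1) / Q : ℕ) : ℝ) := by
    have h9 := Nat.lt_div_mul_add (a := Nat.sqrt n - 1) hQ
    have h10 : ((Nat.sqrt n - 1 : ℕ) : ℝ) < (((Nat.sqrt n - 1) / Q : ℕ) : ℝ) * Q + Q := by exact_mod_cast h9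
    rw [sub_le_iff_le_add, div_le_iff₀ (by linarith)]
    linarith
  have h11 : (((Nat.sqrt n - 1) / Q : ℕ) : ℝ) ≤ (cop (fam n) (tup n) Q).card := by exact_mod_cast h2.trans h3
  refine le_trans ?_ (h8.trans h11)
  rw [ge_iff_le] at h6
  have h12 : ((n : ℝ) ^ (1 / 2 : ℝ) - 2) / Q ≤ ((Nat.sqrt n - 1 : ℕ) : ℝ) / Q := by gcongr
  have h13 : 1 / (2 * (Q : ℝ)) * (n : ℝ) ^ (1 / 2 : ℝ) ≤ ((n : ℝ) ^ (1 / 2 : ℝ) - 2) / Q - 1 := by
    rw [le_sub_iff_add_le, le_div_iff₀ (by linarith)]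
    have e1 : (1 / (2 * (Q : ℝ)) * (n : ℝ) ^ (1 / 2 : ℝ) + 1) * Q = (n : ℝ) ^ (1 / 2 : ℝ) / 2 + Q := by
      field_simp
    rw [e1]
    linarith
  linarith

/-- few exceptional `m` -/
lemma few (δ : ℝ) (hδ : 0 < δ) : ∃ η : ℝ, 0 < η ∧ ∀ᶠ n : ℕ in atTop,
    ((far (fam n) (tup n) (1 * Real.log n) δ).card : ℝ) ≤ (n : ℝ) ^ (1 / 2 - η : ℝ) := by
  classical
  set d : ℝ := min δ (1 / 4) with hd
  have hd0 : 0 < d := by rw [hd]; positivity
  have hd1 : d ≤ 1 / 4 := min_le_right _ _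
  refine ⟨d / 2, by positivity, ?_⟩
  have h1 : ∀ᶠ n : ℕ in atTop, (2 : ℝ) ≤ (n : ℝ) ^ (d / 2 : ℝ) :=
    ((tendsto_rpow_atTop (by positivity : (0:ℝ) < d / 2)).comp tendsto_natCast_atTop_atTop).eventually_ge_atTop _
  filter_upwards [near_log 1 d hd0, h1, eventually_gt_atTop 1] with n g1 g2 g3
  have hn : (1 : ℝ) < n := by exact_mod_cast g3
  have hn0 : (0 : ℝ) < n := by linarith
  have hL : 0 < Real.log n := Real.log_pos hn
  set y : ℝ := (n : ℝ) ^ (1 - d) with hy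
  have hyn : y ≤ n := by
    rw [hy]
    calc (n : ℝ) ^ (1 - d) ≤ (n : ℝ) ^ (1 : ℝ) := Real.rpow_le_rpow_of_exponent_le hn.le (by linarith)
      _ = n := Real.rpow_one _
  have hy0 : 0 < y := Real.rpow_pos_of_pos hn0 _
  have h2 : far (fam n) (tup n) (1 * Real.log n) δ ⊆ Finset.Ioc ⌊√((n : ℝ) - y)⌋₊ ⌊√(n : ℝ)⌋₊ := by
    intro m hm
    unfold far fam tup at hm
    simp only [Finset.mem_filter, Finset.mem_Ioc, Finset.mem_singleton, exists_eq_left] at hm
    obtain ⟨⟨⟨m1, m2⟩, m3⟩, m4⟩ := hm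
    rw [Finset.mem_Ioc]
    have m5 : ((n - m ^ 2 : ℕ) : ℝ) = n - (m : ℝ) ^ 2 := by
      rw [Nat.cast_sub m3.le]
      push_cast
      rfl
    have m6 : ((n - m ^ 2 : ℕ) : ℝ) < y := by
      by_contra hcon
      push Not at hcon
      have m7 := g1 (n - m ^ 2) hcon (by
        rw [m5, one_mul]
        nlinarith)
      rw [one_mul] at m4
      have : d * Real.log n ≤ δ * Real.log n := mul_le_mul_of_nonneg_right (min_le_left _ _) hL.le
      linarith
    constructor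
    · rw [Nat.floor_lt (Real.sqrt_nonneg _), Real.sqrt_lt' (by exact_mod_cast m1)]
      rw [m5] at m6
      linarith
    · rw [Nat.le_floor_iff (Real.sqrt_nonneg _)]
      apply Real.le_sqrt_of_sq_le
      exact_mod_cast m3.le
  have h3 : ((far (fam n) (tup n) (1 * Real.log n) δ).card : ℝ) ≤ √(n : ℝ) - √((n : ℝ) - y) + 1 := by
    have h4 := Finset.card_le_card h2
    rw [Nat.card_Ioc] at h4
    have h5 : ⌊√((n : ℝ) - y)⌋₊ ≤ ⌊√(n : ℝ)⌋₊ := Nat.floor_mono (Real.sqrt_le_sqrt (by linarith))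
    have h6 : ((far (fam n) (tup n) (1 * Real.log n) δ).card : ℝ) ≤ (⌊√(n : ℝ)⌋₊ : ℝ) - ⌊√((n : ℝ) - y)⌋₊ := by
      rw [← Nat.cast_sub h5]
      exact_mod_cast h4
    have h7 := Nat.floor_le (Real.sqrt_nonneg (n : ℝ))
    have h8 := Nat.lt_floor_add_one √((n : ℝ) - y)
    linarith
  have h4 : √(n : ℝ) - √((n : ℝ) - y) ≤ (n : ℝ) ^ (1 / 2 - d : ℝ) := by
    have hs : 0 < √(n : ℝ) := Real.sqrt_pos.2 hn0
    have h5 : (√(n : ℝ) - √((n : ℝ) - y)) * √(n : ℝ) ≤ y := by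
      have e1 := Real.mul_self_sqrt hn0.le
      have e2 : (n : ℝ) - y ≤ √((n : ℝ) - y) * √(n : ℝ) := by
        have e3 := Real.mul_self_sqrt (show 0 ≤ (n : ℝ) - y by linarith)
        have e4 : √((n : ℝ) - y) ≤ √(n : ℝ) := Real.sqrt_le_sqrt (by linarith)
        nlinarith [Real.sqrt_nonneg ((n : ℝ) - y)]
      nlinarith
    have h6 : (n : ℝ) ^ (1 / 2 - d : ℝ) = y / √(n : ℝ) := by
      rw [hy, Real.sqrt_eq_rpow, ← Real.rpow_sub hn0]
      congr 1
      ring
    rw [h6, le_div_iff₀ hs]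
    exact h5
  have h5 : (n : ℝ) ^ (1 / 2 - d / 2 : ℝ) = (n : ℝ) ^ (1 / 2 - d : ℝ) * (n : ℝ) ^ (d / 2 : ℝ) := by
    rw [← Real.rpow_add hn0]
    congr 1
    ring
  have h6 : (1 : ℝ) ≤ (n : ℝ) ^ (1 / 2 - d : ℝ) := Real.one_le_rpow hn.le (by linarith)
  rw [h5]
  nlinarith

end Pool.Agent.Results.MP_d48457_nt.SievedModels

open Pool.Agent.Results.MP_d48457_nt.SievedModels Pool.Agent.N909.TF

/-- Let `A n` be the event that `n` belongs to a random set adapted to a filtration `ℱ`, let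
`Q ≥ 1`, let no integer which is not coprime to `Q` be chosen, and let the conditional probability of
`A (n + 1)` given `ℱ n`, times `log n`, tend to `Q / φ(Q)` along the `n` with `n + 1` coprime to `Q`,
almost surely.  Let `R(n)` be the number of `m ≥ 1` for which `n - m²` is positive and chosen, and
`N(n)` the number of those for which it is coprime to `Q`.  (1) `N(n) ≥ √n / (2 Q)` for all large `n`.
(2) Almost surely `R(n)` is asymptotic to `N(n) (Q / φ(Q)) / log n` as `n → ∞`.  (3) Almost surely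
`R(n) ≥ √n / (4 Q log n)` for all large `n`; in particular every large `n` is the sum of a chosen
integer and a square. -/
theorem Pool.Agent.Results.MP_d48457_nt.SievedModels.result
    {Ω : Type} [mΩ : MeasurableSpace Ω] (μ : Measure Ω) [IsProbabilityMeasure μ]
    (ℱ : Filtration ℕ mΩ) (A : ℕ → Set Ω) (hA : ∀ n, MeasurableSet[ℱ n] (A n))
    (Q : ℕ) (hQ : 0 < Q) (hcop : ∀ n, ¬ Nat.Coprime n Q → A n = ∅)
    (hd : ∀ᵐ ω ∂μ, Tendsto (fun n : ℕ =>
      (μ[(A (n + 1)).indicator (fun _ => (1 : ℝ)) | ℱ n]) ω * Real.log n)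
      (atTop ⊓ 𝓟 {n : ℕ | Nat.Coprime (n + 1) Q}) (𝓝 ((Q : ℝ) / Nat.totient Q))) :
    (∀ᶠ n : ℕ in atTop, √(n : ℝ) / (2 * Q) ≤ (roots {k : ℕ | Nat.Coprime k Q} n).ncard) ∧
    (∀ᵐ ω ∂μ, ∀ ε : ℝ, 0 < ε → ∀ᶠ n : ℕ in atTop,
      |((roots {k : ℕ | ω ∈ A k} n).ncard : ℝ) -
        (roots {k : ℕ | Nat.Coprime k Q} n).ncard * (((Q : ℝ) / Nat.totient Q) / Real.log n)| ≤
      ε * ((roots {k : ℕ | Nat.Coprime k Q} n).ncard * (((Q : ℝ) / Nat.totient Q) / Real.log n))) ∧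
    (∀ᵐ ω ∂μ, ∀ᶠ n : ℕ in atTop,
      √(n : ℝ) / (4 * Q * Real.log n) ≤ (roots {k : ℕ | ω ∈ A k} n).ncard ∧
      ∃ a m : ℕ, ω ∈ A a ∧ 1 ≤ m ∧ n = a + m ^ 2) := by
  classical
  have h1 : ∀ᶠ n : ℕ in atTop, √(n : ℝ) / (2 * Q) ≤ (roots {k : ℕ | Nat.Coprime k Q} n).ncard := by
    filter_upwards [many Q hQ] with n g
    rw [roots_cop, Real.sqrt_eq_rpow, div_eq_mul_inv, mul_comm, ← one_div]
    exact g
  have h2 : ∀ᵐ ω ∂μ, ∀ ε : ℝ, 0 < ε → ∀ᶠ n : ℕ in atTop,
      |((roots {k : ℕ | ω ∈ A k} n).ncard : ℝ) -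
        (roots {k : ℕ | Nat.Coprime k Q} n).ncard * (((Q : ℝ) / Nat.totient Q) / Real.log n)| ≤
      ε * ((roots {k : ℕ | Nat.Coprime k Q} n).ncard * (((Q : ℝ) / Nat.totient Q) / Real.log n)) := by
    have h3 := law (μ := μ) hA Q hQ hcop hd 1 fam tup (fun _ => 1) (fun n j _ => Finset.card_singleton _)
      (fun n j hj => by
        unfold tup
        rw [Finset.mem_singleton]
        have := (Finset.mem_filter.1 hj).2
        omega)
      (fun n t => by
        refine Finset.card_le_one.2 fun a ha b hb => ?_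
        unfold fam tup at ha hb
        simp only [Finset.mem_filter, Finset.mem_Ioc, Finset.mem_singleton] at ha hb
        have : a ^ 2 = b ^ 2 := by omega
        exact Nat.pow_left_injective two_ne_zero this)
      (fun _ => le_rfl) atTop le_rfl 1 (1 / 2) (1 / (2 * Q)) one_pos (by positivity) (many Q hQ)
      ⟨1 / 4, by norm_num, by
        filter_upwards [eventually_ge_atTop 1] with n hn
        have : (1 : ℝ) ≤ n := by exact_mod_cast hn
        rw [Nat.cast_one]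
        exact Real.one_le_rpow this (by norm_num)⟩ few
    filter_upwards [h3] with ω hω ε hε
    filter_upwards [hω ε hε] with n g
    rw [roots_cop, roots_cho]
    simpa only [one_mul, pow_one] using g
  refine ⟨h1, h2, ?_⟩
  filter_upwards [h2] with ω hω
  filter_upwards [hω (1 / 2) (by norm_num), h1, eventually_gt_atTop 1] with n g1 g2 g3
  have hn : (1 : ℝ) < n := by exact_mod_cast g3
  have hL : 0 < Real.log n := Real.log_pos hn
  have hc := cQ_ge Q hQ
  have hQ0 : (0 : ℝ) < Q := by exact_mod_cast hQ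
  have k1 := (abs_le.1 g1).1
  set N : ℝ := ((roots {k : ℕ | Nat.Coprime k Q} n).ncard : ℝ)
  set c : ℝ := (Q : ℝ) / Nat.totient Q
  have k2 : √(n : ℝ) / (2 * Q) * (1 / Real.log n) ≤ N * (c / Real.log n) := by
    apply mul_le_mul g2 _ (by positivity) (Nat.cast_nonneg _)
    gcongr
  have k3 : √(n : ℝ) / (4 * Q * Real.log n) = 1 / 2 * (√(n : ℝ) / (2 * Q) * (1 / Real.log n)) := by
    field_simp
    norm_num
  have k4 : √(n : ℝ) / (4 * Q * Real.log n) ≤ (roots {k : ℕ | ω ∈ A k} n).ncard := by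
    rw [k3]
    linarith
  refine ⟨k4, ?_⟩
  have hpos : 0 < (roots {k : ℕ | ω ∈ A k} n).ncard := by
    have : (0 : ℝ) < (roots {k : ℕ | ω ∈ A k} n).ncard := lt_of_lt_of_le (by positivity) k4
    exact_mod_cast this
  obtain ⟨m, m1, a, m2, m3, m4⟩ := Set.nonempty_of_ncard_ne_zero hpos.ne'
  exact ⟨a, m, m2, m1, m4⟩
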